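import Pool.Agent.H39.MZ.MV
import Pool.Agent.H29.RS.Targets

/-!
# (MVT) the mean value theorem with slowly varying weights, both inequalities
-/

set_option autoImplicit false

open Complex MeasureTheory Set intervalIntegral

namespace Pool.Agent.H68.RS

open Pool.Agent.H39.MZ

/-- (MVT) -/
theorem pf_MVT : Pool.Agent.H29.RS.T_MVT := by
  classical
  refine ⟨12, by norm_num, ?_⟩
  intro N a g g' x₀ x₁ V hN h01 hV hg hg' hb hb'
  rcases h01.eq_or_lt with rfl | h01'
  · simp only [intervalIntegral.integral_same, mul_zero, Finset.sum_const_zero, sub_zero,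
      abs_zero]
    have h1 : 0 ≤ Real.log ((N : ℝ) + 1) := Real.log_nonneg (by
      have : (0 : ℝ) ≤ N := Nat.cast_nonneg N
      linarith)
    positivity
  set S := Finset.Icc 1 N with hS
  set E : ℕ → ℝ → ℂ := fun k x => cexp (((-(x * Real.log k) : ℝ) : ℂ) * I) with hE
  have hu : uIcc x₀ x₁ = Icc x₀ x₁ := uIcc_of_le h01
  have hgc : ∀ k, ContinuousOn (g k) (uIcc x₀ x₁) := fun k => by
    rw [hu]
    exact fun x hx => (hg k x hx).continuousAt.continuousWithinAt
  have hEc : ∀ k, Continuous (E k) := fun k => by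
    simp only [hE]
    fun_prop
  set Hf : ℕ → ℕ → ℝ → ℂ := fun k l x => (a k * g k x * E k x) *
    (starRingEnd ℂ) (a l * g l x * E l x) with hHf
  have hHc : ∀ k l, ContinuousOn (Hf k l) (uIcc x₀ x₁) := by
    intro k l
    simp only [hHf]
    apply ContinuousOn.mul
    · exact (continuousOn_const.mul (hgc k)).mul (hEc k).continuousOn
    · exact Complex.continuous_conj.comp_continuousOn
        ((continuousOn_const.mul (hgc l)).mul (hEc l).continuousOn)
  have hHi : ∀ k l, IntervalIntegrable (Hf k l) volume x₀ x₁ :=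
    fun k l => (hHc k l).intervalIntegrable
  have hexp : ∀ x, ((‖∑ k ∈ S, a k * g k x * E k x‖ ^ 2 : ℝ) : ℂ) =
      ∑ k ∈ S, ∑ l ∈ S, Hf k l x := by
    intro x
    rw [← Complex.normSq_eq_norm_sq, ← Complex.mul_conj, map_sum, Finset.sum_mul_sum]
  have hint : ((∫ x in x₀..x₁, ‖∑ k ∈ S, a k * g k x * E k x‖ ^ 2 : ℝ) : ℂ) =
      ∑ k ∈ S, ∑ l ∈ S, ∫ x in x₀..x₁, Hf k l x := by
    rw [← intervalIntegral.integral_ofReal]
    simp_rw [hexp]
    rw [intervalIntegral.integral_finsetSum]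
    · refine Finset.sum_congr rfl fun k _ => ?_
      rw [intervalIntegral.integral_finsetSum]
      exact fun l _ => hHi k l
    · intro k _
      exact (continuousOn_finsetSum S fun l _ => hHc k l).intervalIntegrable
  -- diagonal
  have hdiag : ∀ k, ∫ x in x₀..x₁, Hf k k x = ((‖a k‖ ^ 2 * ∫ x in x₀..x₁, ‖g k x‖ ^ 2 : ℝ) : ℂ) := by
    intro k
    rw [← intervalIntegral.integral_const_mul, ← intervalIntegral.integral_ofReal]
    refine intervalIntegral.integral_congr fun x _ => ?_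
    simp only [hHf]
    rw [Complex.mul_conj, Complex.normSq_eq_norm_sq, norm_mul, norm_mul]
    simp only [hE]
    rw [Complex.norm_exp_ofReal_mul_I]
    push_cast
    ring
  -- off-diagonal
  have hoff : ∀ k ∈ S, ∀ l ∈ S, k ≠ l → ‖∫ x in x₀..x₁, Hf k l x‖ ≤
      (‖a k‖ ^ 2 + ‖a l‖ ^ 2) * ((1 + V) * N * (1 / |(k : ℝ) - l|)) := by
    intro k hk l hl hkl
    obtain ⟨hs1, hs2⟩ := log_sep hk hl hkl
    set L : ℝ := Real.log l - Real.log k with hL
    have hLpos : 0 < |L| := hs2.trans_le hs1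
    have hLne : L ≠ 0 := abs_pos.1 hLpos
    have e1 : ∀ x, Hf k l x = a k * (starRingEnd ℂ) (a l) *
        ((g k x * (starRingEnd ℂ) (g l x)) * cexp (((L * x : ℝ) : ℂ) * I)) := by
      intro x
      simp only [hHf, hE, map_mul, ← Complex.exp_conj, Complex.conj_ofReal, Complex.conj_I]
      have : cexp (((L * x : ℝ) : ℂ) * I) = cexp (((-(x * Real.log k) : ℝ) : ℂ) * I) *
          cexp (((-(x * Real.log l) : ℝ) : ℂ) * -I) := by
        rw [← Complex.exp_add]
        congr 1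
        simp only [hL]
        push_cast
        ring
      rw [this]
      ring
    have hG : ∀ x ∈ Icc x₀ x₁, HasDerivAt (fun x => g k x * (starRingEnd ℂ) (g l x))
        (g' k x * (starRingEnd ℂ) (g l x) + g k x * (starRingEnd ℂ) (g' l x)) x := by
      intro x hx
      have h1 := hg k x hx
      have h2 : HasDerivAt (fun x => (starRingEnd ℂ) (g l x)) ((starRingEnd ℂ) (g' l x)) x :=
        (hg l x hx).star_conj
      exact h1.mul h2
    have ho := osc (V := 2 * V) h01' hLne hG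
      (by
        apply ContinuousOn.add
        · exact (hg' k).mul (Complex.continuous_conj.comp_continuousOn (hu ▸ hgc l))
        · exact (hu ▸ hgc k).mul (Complex.continuous_conj.comp_continuousOn (hg' l)))
      (by
        intro x hx
        rw [norm_mul, RCLike.norm_conj]
        exact mul_le_one₀ (hb k x hx) (norm_nonneg _) (hb l x hx))
      (by
        intro x hx
        have h1 := hb' k x hx
        have h2 := hb' l x hx
        have h3 : ‖g' k x * (starRingEnd ℂ) (g l x) + g k x * (starRingEnd ℂ) (g' l x)‖ ≤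
            ‖g' k x‖ + ‖g' l x‖ := by
          refine (norm_add_le _ _).trans ?_
          rw [norm_mul, norm_mul, RCLike.norm_conj, RCLike.norm_conj]
          have h4 := hb k x hx
          have h5 := hb l x hx
          nlinarith [norm_nonneg (g' k x), norm_nonneg (g' l x)]
        have h6 : 0 ≤ x₁ - x₀ := by linarith
        nlinarith)
    have e2 : ∫ x in x₀..x₁, Hf k l x = a k * (starRingEnd ℂ) (a l) *
        ∫ x in x₀..x₁, (g k x * (starRingEnd ℂ) (g l x)) * cexp (((L * x : ℝ) : ℂ) * I) := by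
      rw [← intervalIntegral.integral_const_mul]
      exact intervalIntegral.integral_congr fun x _ => e1 x
    rw [e2, norm_mul, norm_mul, RCLike.norm_conj]
    have N0 : (0 : ℝ) < N := by exact_mod_cast hN
    have hd : 0 < |(k : ℝ) - l| := by
      by_contra h
      have : |(k : ℝ) - l| = 0 := le_antisymm (not_lt.1 h) (abs_nonneg _)
      rw [this] at hs2
      simp at hs2
    have h7 : (2 + 2 * V) / |L| ≤ 2 * ((1 + V) * N * (1 / |(k : ℝ) - l|)) := by
      calc (2 + 2 * V) / |L| ≤ (2 + 2 * V) / (|(k : ℝ) - l| / N) := by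
            apply div_le_div_of_nonneg_left (by linarith) hs2 hs1
        _ = 2 * ((1 + V) * N * (1 / |(k : ℝ) - l|)) := by
            field_simp
    have h8 : ‖a k‖ * ‖a l‖ * 2 ≤ ‖a k‖ ^ 2 + ‖a l‖ ^ 2 := by
      nlinarith [sq_nonneg (‖a k‖ - ‖a l‖)]
    have h9 : 0 ≤ (1 + V) * N * (1 / |(k : ℝ) - l|) := by positivity
    calc _ ≤ ‖a k‖ * ‖a l‖ * (2 * ((1 + V) * N * (1 / |(k : ℝ) - l|))) := by
          gcongr
          exact ho.trans h7
      _ = (‖a k‖ * ‖a l‖ * 2) * ((1 + V) * N * (1 / |(k : ℝ) - l|)) := by ring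
      _ ≤ _ := by gcongr
  -- conclusion
  have hre : ∫ x in x₀..x₁, ‖∑ k ∈ S, a k * g k x * E k x‖ ^ 2 =
      (∑ k ∈ S, ‖a k‖ ^ 2 * ∫ x in x₀..x₁, ‖g k x‖ ^ 2) +
        (∑ k ∈ S, ∑ l ∈ S.erase k, ∫ x in x₀..x₁, Hf k l x).re := by
    have h1 := congrArg Complex.re hint
    rw [Complex.ofReal_re] at h1
    rw [h1]
    have h2 : ∑ k ∈ S, ∑ l ∈ S, ∫ x in x₀..x₁, Hf k l x =
        ∑ k ∈ S, (∫ x in x₀..x₁, Hf k k x) +
          ∑ k ∈ S, ∑ l ∈ S.erase k, ∫ x in x₀..x₁, Hf k l x := by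
      rw [← Finset.sum_add_distrib]
      refine Finset.sum_congr rfl fun k hk => ?_
      rw [Finset.add_sum_erase S (fun l => ∫ x in x₀..x₁, Hf k l x) hk]
    rw [h2, Complex.add_re]
    congr 1
    simp_rw [hdiag]
    rw [Complex.re_sum]
    simp only [Complex.ofReal_re]
  rw [hre]
  have hbound : ‖∑ k ∈ S, ∑ l ∈ S.erase k, ∫ x in x₀..x₁, Hf k l x‖ ≤
      12 * (1 + V) * N * Real.log (N + 1) * ∑ k ∈ S, ‖a k‖ ^ 2 := by
    have h1 : ‖∑ k ∈ S, ∑ l ∈ S.erase k, ∫ x in x₀..x₁, Hf k l x‖ ≤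
        ∑ k ∈ S, ∑ l ∈ S.erase k,
          (‖a k‖ ^ 2 + ‖a l‖ ^ 2) * ((1 + V) * N * (1 / |(k : ℝ) - l|)) := by
      refine (norm_sum_le _ _).trans (Finset.sum_le_sum fun k hk => ?_)
      refine (norm_sum_le _ _).trans (Finset.sum_le_sum fun l hl => ?_)
      rw [Finset.mem_erase] at hl
      exact hoff k hk l hl.2 (Ne.symm hl.1)
    have h2 : ∑ k ∈ S, ∑ l ∈ S.erase k,
        (‖a k‖ ^ 2 + ‖a l‖ ^ 2) * ((1 + V) * N * (1 / |(k : ℝ) - l|)) =
        2 * ∑ k ∈ S, ‖a k‖ ^ 2 * ((1 + V) * N * ∑ l ∈ S.erase k, 1 / |(k : ℝ) - l|) := by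
      have h3 : ∑ k ∈ S, ∑ l ∈ S.erase k, ‖a l‖ ^ 2 * ((1 + V) * N * (1 / |(k : ℝ) - l|)) =
          ∑ k ∈ S, ∑ l ∈ S.erase k, ‖a k‖ ^ 2 * ((1 + V) * N * (1 / |(k : ℝ) - l|)) := by
        rw [Finset.sum_comm' (s' := fun k => S.erase k) (t' := S)]
        · refine Finset.sum_congr rfl fun k _ => Finset.sum_congr rfl fun l _ => ?_
          rw [abs_sub_comm]
        · intro x y
          simp only [Finset.mem_erase]
          constructor
          · rintro ⟨h1, h2, h3⟩
            exact ⟨⟨Ne.symm h2, h1⟩, h3⟩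
          · rintro ⟨⟨h1, h2⟩, h3⟩
            exact ⟨h2, Ne.symm h1, h3⟩
      have h4 : ∀ k l : ℕ, (‖a k‖ ^ 2 + ‖a l‖ ^ 2) * ((1 + V) * N * (1 / |(k : ℝ) - l|)) =
          ‖a k‖ ^ 2 * ((1 + V) * N * (1 / |(k : ℝ) - l|)) +
          ‖a l‖ ^ 2 * ((1 + V) * N * (1 / |(k : ℝ) - l|)) := fun k l => add_mul _ _ _
      simp_rw [h4, Finset.sum_add_distrib]
      rw [h3, ← two_mul]
      congr 1
      refine Finset.sum_congr rfl fun k _ => ?_
      rw [← Finset.mul_sum, ← Finset.mul_sum]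
    rw [h2] at h1
    refine h1.trans ?_
    have N0 : (0 : ℝ) < N := by exact_mod_cast hN
    calc 2 * ∑ k ∈ S, ‖a k‖ ^ 2 * ((1 + V) * N * ∑ l ∈ S.erase k, 1 / |(k : ℝ) - l|) ≤
        2 * ∑ k ∈ S, ‖a k‖ ^ 2 * ((1 + V) * N * (6 * Real.log (N + 1))) := by
          gcongr with k hk
          exact sum_inv_dist N k hN hk
      _ = 12 * (1 + V) * N * Real.log (N + 1) * ∑ k ∈ S, ‖a k‖ ^ 2 := by
          rw [← Finset.sum_mul]
          ring
  have := (Complex.abs_re_le_norm _).trans hbound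
  rw [add_sub_cancel_left]
  exact this

end Pool.Agent.H68.RS
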